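import Mathlib
import Pool.Agent.Lib.MP_10302a_co.Defs
import Pool.Agent.Lib.MP_10302a_co.Main

set_option autoImplicit false

namespace Pool.Agent.Results.MP_10302a_co.Q1Unbounded

open Pool.Agent.Lib.MP_10302a_co

/-- Q1 is false, already for square grids. -/
theorem result : ∀ C : ℝ, ∃ n : ℕ, 2 ≤ n ∧
    C * ((n : ℝ) * Real.sqrt (n : ℝ) + (n : ℝ)) < (z3A n n : ℝ) := by
  intro C
  obtain ⟨t, ht⟩ := exists_nat_gt (max (12 * C) 1)
  have ht1 : (1 : ℝ) < t := lt_of_le_of_lt (le_max_right _ _) ht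
  have htC : 12 * C < t := lt_of_le_of_lt (le_max_left _ _) ht
  have ht1' : 1 < t := by exact_mod_cast ht1
  refine ⟨4 * t ^ 2, by nlinarith, ?_⟩
  have h := z3A_ge (4 * t ^ 2) (4 * t ^ 2)
  have h2 : 4 * t ^ 2 / 2 = 2 * t ^ 2 := by omega
  rw [h2] at h
  have h3 : (((2 * t ^ 2) * (2 * t ^ 2) : ℕ) : ℝ) ≤ (z3A (4 * t ^ 2) (4 * t ^ 2) : ℝ) := by
    exact_mod_cast h
  refine lt_of_lt_of_le ?_ h3
  have hs : Real.sqrt ((4 * t ^ 2 : ℕ) : ℝ) = 2 * t := by
    rw [Real.sqrt_eq_iff_mul_self_eq (by positivity) (by positivity)]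
    push_cast; ring
  rw [hs]
  push_cast
  have ht0 : (0 : ℝ) < t := by linarith
  have e1 : C * (2 * t + 1) < t ^ 2 := by
    rcases le_or_gt C 0 with hC | hC
    · have : C * (2 * t + 1) ≤ 0 := mul_nonpos_of_nonpos_of_nonneg hC (by positivity)
      have : (0 : ℝ) < t ^ 2 := by positivity
      linarith
    · nlinarith
  have e2 : (0 : ℝ) < 4 * t ^ 2 := by positivity
  nlinarith [mul_lt_mul_of_pos_left e1 e2]

end Pool.Agent.Results.MP_10302a_co.Q1Unbounded
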