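import Mathlib
import Pool.Agent.Lib.MP_10302a_co.Defs
import Pool.Agent.Lib.MP_10302a_co.Order

set_option autoImplicit false

namespace Pool.Agent.Results.MP_10302a_co.TrueOrder

open Pool.Agent.Lib.MP_10302a_co

/-- The limited number is at least a fixed fraction of the number of cells, for every grid. -/
theorem result (m n : ℕ) : m * n ≤ 1000 * z3L m n := Order.main m n

/-- The negated form of Q2, on square grids, follows from `result`. -/
theorem unbounded (C : ℝ) : ∃ n : ℕ, 2 ≤ n ∧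
    C * ((n : ℝ) * Real.sqrt (n : ℝ) + (n : ℝ)) < (z3L n n : ℝ) := by
  obtain ⟨t, ht⟩ := exists_nat_gt (max (2000 * C) 1)
  have h1 : (1 : ℝ) < t := (le_max_right _ _).trans_lt ht
  have hC : 2000 * C < t := (le_max_left _ _).trans_lt ht
  have h1' : 1 < t := by exact_mod_cast h1
  refine ⟨t ^ 2, by nlinarith, ?_⟩
  have h : ((t : ℝ) ^ 2) * (t : ℝ) ^ 2 ≤ 1000 * (z3L (t ^ 2) (t ^ 2) : ℝ) := by
    exact_mod_cast result (t ^ 2) (t ^ 2)
  have t0 : (0 : ℝ) < t := by linarith
  rw [Nat.cast_pow, Real.sqrt_sq t0.le]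
  have e1 : 1000 * C * (t + 1) < t ^ 2 := by nlinarith
  nlinarith [mul_lt_mul_of_pos_left e1 (pow_pos t0 2)]

end Pool.Agent.Results.MP_10302a_co.TrueOrder
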